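import Mathlib
import Pool.Agent.H754R3.Rains

/-!
# A family of EHI data with gauge group `SU(2)`

Copies of `ℂ²`, `Sym² ℂ²`, `Sym³ ℂ²` and `Sym² ℂ² ⊗ Sym³ ℂ²`. The definitions are those of
`Pool.Agent.H754R3.Rains` (helper754).
-/

set_option autoImplicit false

namespace Pool.Agent.Y16.RA

open Matrix Pool.Agent.H754R3.Rains
open scoped Kronecker

/-! ### two more representations -/

/-- The defining representation `ℂ²`, weights `1, -1`. -/
noncomputable def defRep : Rep where
  dim := 2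
  ρ := { toFun := fun g => (g : Matrix (Fin 2) (Fin 2) ℂ), map_one' := rfl,
         map_mul' := fun _ _ => rfl }
  continuous_ρ := continuous_subtype_val
  weight := ![1, -1]
  torus_act := by
    intro x
    ext i j
    fin_cases i <;> fin_cases j <;> simp [torus]

/-- The tensor product of two representations. -/
noncomputable def tensor (R S : Rep) : Rep where
  dim := R.dim * S.dim
  ρ := { toFun := fun g => Matrix.reindexAlgEquiv ℂ ℂ finProdFinEquiv ((R.ρ g) ⊗ₖ (S.ρ g))
         map_one' := by rw [map_one, map_one, Matrix.one_kronecker_one, map_one]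
         map_mul' := fun g h => by
          rw [map_mul, map_mul, Matrix.mul_kronecker_mul, map_mul] }
  continuous_ρ := by
    refine continuous_matrix fun i j => ?_
    change Continuous fun g => R.ρ g (finProdFinEquiv.symm i).1 (finProdFinEquiv.symm j).1 *
      S.ρ g (finProdFinEquiv.symm i).2 (finProdFinEquiv.symm j).2
    exact (R.continuous_ρ.matrix_elem _ _).mul (S.continuous_ρ.matrix_elem _ _)
  weight := fun i => R.weight (finProdFinEquiv.symm i).1 + S.weight (finProdFinEquiv.symm i).2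
  torus_act := by
    intro x
    ext i j
    change R.ρ (torus x) (finProdFinEquiv.symm i).1 (finProdFinEquiv.symm j).1 *
      S.ρ (torus x) (finProdFinEquiv.symm i).2 (finProdFinEquiv.symm j).2 = _
    rw [R.torus_act, S.torus_act, Matrix.diagonal_apply, Matrix.diagonal_apply,
      Matrix.diagonal_apply]
    by_cases h : i = j
    · subst h
      rw [if_pos rfl, if_pos rfl, if_pos rfl, ← e_add]
      congr 1
      push_cast
      ring
    · have h1 : ¬ ((finProdFinEquiv.symm i).1 = (finProdFinEquiv.symm j).1 ∧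
          (finProdFinEquiv.symm i).2 = (finProdFinEquiv.symm j).2) := by
        rintro ⟨a, b⟩
        exact h (finProdFinEquiv.symm.injective (Prod.ext a b))
      rw [if_neg h]
      by_cases h2 : (finProdFinEquiv.symm i).1 = (finProdFinEquiv.symm j).1
      · rw [if_neg (fun h3 => h1 ⟨h2, h3⟩), mul_zero]
      · rw [if_neg h2, zero_mul]

/-- `Sym² ℂ² ⊗ Sym³ ℂ²`, weights `±5, ±3 (twice), ±1 (three times)`. -/
noncomputable def bigRep : Rep := tensor adjRep cubeRep

lemma sum_def {M : Type} [AddCommMonoid M] (f : ℤ → M) :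
    ∑ i, f (defRep.weight i) = f 1 + f (-1) := by
  change ∑ i : Fin 2, f ((![1, -1] : Fin 2 → ℤ) i) = _
  simp [Fin.sum_univ_two]

lemma sum_tensor (R S : Rep) (f : ℤ → ℝ) :
    ∑ i, f ((tensor R S).weight i) = ∑ a, ∑ b, f (R.weight a + S.weight b) := by
  change ∑ i : Fin (R.dim * S.dim), f (R.weight (finProdFinEquiv.symm i).1 +
    S.weight (finProdFinEquiv.symm i).2) = _
  rw [Equiv.sum_comp finProdFinEquiv.symm (fun p => f (R.weight p.1 + S.weight p.2)),
    Fintype.sum_prod_type]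

lemma sum_big (f : ℤ → ℝ) : ∑ i, f (bigRep.weight i) =
    f 5 + 2 * f 3 + 3 * f 1 + 3 * f (-1) + 2 * f (-3) + f (-5) := by
  unfold bigRep
  rw [sum_tensor]
  have h1 : ∀ a : ℤ, ∑ b, f (a + cubeRep.weight b) = f (a + 3) + f (a + 1) + f (a + -1) +
      f (a + -3) := fun a => sum_cube (fun w => f (a + w))
  rw [Finset.sum_congr rfl fun a _ => h1 (adjRep.weight a)]
  rw [sum_adj (fun a => f (a + 3) + f (a + 1) + f (a + -1) + f (a + -3))]
  norm_num
  ring

/-! ### symmetric weights, absence of singlets -/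

/-- The weights are symmetric. -/
def SymW (R : Rep) : Prop := ∃ σ : Fin R.dim ≃ Fin R.dim, ∀ i, R.weight (σ i) = -R.weight i

lemma symW_card {R : Rep} (h : SymW R) (w : ℤ) :
    (Finset.univ.filter fun i => R.weight i = w).card
      = (Finset.univ.filter fun i => R.weight i = -w).card := by
  obtain ⟨σ, hσ⟩ := h
  refine Finset.card_equiv σ ?_
  intro i
  simp only [Finset.mem_filter, Finset.mem_univ, true_and]
  rw [hσ i]
  constructor
  · intro h; rw [h]
  · intro h; exact neg_injective h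

lemma symW_def : SymW defRep := by
  refine ⟨Fin.revPerm, ?_⟩
  change ∀ i : Fin 2, (![1, -1] : Fin 2 → ℤ) (Fin.rev i) = -(![1, -1] : Fin 2 → ℤ) i
  decide

lemma symW_adj : SymW adjRep := ⟨Fin.revPerm, adj_rev⟩

lemma symW_cube : SymW cubeRep := ⟨Fin.revPerm, cube_rev⟩

lemma symW_tensor {R S : Rep} (hR : SymW R) (hS : SymW S) : SymW (tensor R S) := by
  obtain ⟨σ, hσ⟩ := hR
  obtain ⟨τ, hτ⟩ := hS
  refine ⟨(finProdFinEquiv.symm.trans (Equiv.prodCongr σ τ)).trans finProdFinEquiv, ?_⟩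
  intro i
  change R.weight (finProdFinEquiv.symm (finProdFinEquiv (σ (finProdFinEquiv.symm i).1,
    τ (finProdFinEquiv.symm i).2))).1 + S.weight (finProdFinEquiv.symm (finProdFinEquiv
    (σ (finProdFinEquiv.symm i).1, τ (finProdFinEquiv.symm i).2))).2 =
    -(R.weight (finProdFinEquiv.symm i).1 + S.weight (finProdFinEquiv.symm i).2)
  rw [Equiv.symm_apply_apply, hσ, hτ]
  ring

/-- A representation with odd weights contains no singlet. -/
lemma noSinglets_odd (R : Rep) (h : ∀ i, Odd (R.weight i)) (v : Fin R.dim → ℂ)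
    (hv : ∀ g : SU2, (R.ρ g).mulVec v = v) : v = 0 := by
  ext i
  have h1 := torus_inv R v hv (1 / 2) i
  obtain ⟨k, hk⟩ := h i
  have h2 : e (R.weight i * (1 / 2)) = -1 := by
    rw [hk]
    have : ((2 * k + 1 : ℤ) : ℝ) * (1 / 2) = (k : ℝ) + 1 / 2 := by push_cast; ring
    rw [this, e_add, e_half]
    have h3 : e (k : ℝ) = 1 := by
      unfold e
      rw [Complex.exp_eq_one_iff]
      exact ⟨k, by push_cast; ring⟩
    rw [h3, one_mul]
  rw [h2] at h1
  have : (2 : ℂ) * v i = 0 := by linear_combination -h1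
  simpa using this

/-! ### the family -/

/-- The four representations. -/
noncomputable def rp : Fin 4 → Rep := ![defRep, adjRep, cubeRep, bigRep]

lemma sum_rp (F : Rep → ℝ) : ∑ a, F (rp a) = F defRep + F adjRep + F cubeRep + F bigRep := by
  simp only [Fin.sum_univ_four, rp]
  simp

lemma sum_D (n : ℕ) (F : Fin 4 → ℝ) :
    ∑ j : Fin (4 * n), F (finProdFinEquiv.symm j).1 = n * ∑ a, F a := by
  rw [Equiv.sum_comp finProdFinEquiv.symm (fun p : Fin 4 × Fin n => F p.1),
    Fintype.sum_prod_type]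
  simp only [Finset.sum_const, Finset.card_univ, Fintype.card_fin, nsmul_eq_mul]
  rw [Finset.mul_sum]

lemma sum_c4 (c : Fin 4 → ℝ) (n : ℕ) (hn : (n : ℝ) ≠ 0) (G : Rep → ℝ) :
    ∑ j : Fin (4 * n), (c (finProdFinEquiv.symm j).1 / n) * G (rp (finProdFinEquiv.symm j).1) =
      c 0 * G defRep + c 1 * G adjRep + c 2 * G cubeRep + c 3 * G bigRep := by
  rw [sum_D n (fun a => (c a / n) * G (rp a))]
  simp only [Fin.sum_univ_four, rp]
  simp
  field_simp

/-- The datum with `n` copies of each representation, with R-charges `1 - c_a / n`. -/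
noncomputable def DD (c : Fin 4 → ℝ) (n : ℕ) (hn : ∀ a, |c a| < n)
    (hq : 2 * c 0 + 8 * c 1 + 20 * c 2 + 92 * c 3 = 8) : Datum where
  J := 4 * n
  R := fun j => rp (finProdFinEquiv.symm j).1
  r := fun j => 1 - c (finProdFinEquiv.symm j).1 / n
  r_mem := by
    intro j
    have h1 := hn (finProdFinEquiv.symm j).1
    have h0 : (0 : ℝ) < n := (abs_nonneg _).trans_lt h1
    rw [abs_lt] at h1
    have h2 : c (finProdFinEquiv.symm j).1 / n < 1 := by rw [div_lt_one h0]; exact h1.2
    have h3 : -1 < c (finProdFinEquiv.symm j).1 / n := by rw [lt_div_iff₀ h0]; linarith [h1.1]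
    constructor <;> linarith
  roots := {-2, 2}
  mem_roots := isRoot_iff
  cubic := by
    rw [sum_D n (fun a => ∑ i, (((rp a).weight i : ℤ) : ℝ) ^ 3)]
    rw [sum_rp (fun R => ∑ i, ((R.weight i : ℤ) : ℝ) ^ 3)]
    rw [sum_def (fun w => (w : ℝ) ^ 3), sum_cube (fun w => (w : ℝ) ^ 3),
      sum_adj (fun w => (w : ℝ) ^ 3), sum_big (fun w => (w : ℝ) ^ 3)]
    norm_num
  quadratic := by
    have h0 : (0 : ℝ) < n := (abs_nonneg _).trans_lt (hn 0)
    have h1 : ∀ j : Fin (4 * n), ((1 - c (finProdFinEquiv.symm j).1 / n) - 1) *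
        ∑ i, (((rp (finProdFinEquiv.symm j).1).weight i : ℤ) : ℝ) ^ 2 =
        -((c (finProdFinEquiv.symm j).1 / n) *
        ∑ i, (((rp (finProdFinEquiv.symm j).1).weight i : ℤ) : ℝ) ^ 2) := fun j => by ring
    rw [Finset.sum_congr rfl fun j _ => h1 j, Finset.sum_neg_distrib,
      sum_c4 c n h0.ne' (fun R => ∑ i, ((R.weight i : ℤ) : ℝ) ^ 2)]
    rw [sum_def (fun w => (w : ℝ) ^ 2), sum_cube (fun w => (w : ℝ) ^ 2),
      sum_adj (fun w => (w : ℝ) ^ 2), sum_big (fun w => (w : ℝ) ^ 2)]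
    have h2 : ∑ α ∈ ({-2, 2} : Finset ℤ), (α : ℝ) ^ 2 = 8 := by
      rw [Finset.sum_pair (by decide)]
      norm_num
    rw [h2]
    push_cast
    linarith

section
variable (c : Fin 4 → ℝ) (n : ℕ) (hn : ∀ a, |c a| < n)
    (hq : 2 * c 0 + 8 * c 1 + 20 * c 2 + 92 * c 3 = 8)

lemma nonChiral_DD : (DD c n hn hq).NonChiral := by
  intro w _
  refine Finset.sum_congr rfl ?_
  intro j _
  have h : ∀ a : Fin 4, SymW (rp a) := by
    intro a
    fin_cases a
    · exact symW_def
    · exact symW_adj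
    · exact symW_cube
    · exact symW_tensor symW_adj symW_cube
  exact symW_card (h (finProdFinEquiv.symm j).1) w

lemma noSinglets_DD : (DD c n hn hq).NoSinglets := by
  intro j
  change ∀ v : Fin (rp (finProdFinEquiv.symm j).1).dim → ℂ,
    (∀ g : SU2, ((rp (finProdFinEquiv.symm j).1).ρ g).mulVec v = v) → v = 0
  have h : ∀ a : Fin 4, ∀ v : Fin (rp a).dim → ℂ,
      (∀ g : SU2, ((rp a).ρ g).mulVec v = v) → v = 0 := by
    intro a
    fin_cases a
    · refine noSinglets_odd defRep ?_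
      change ∀ i : Fin 2, Odd ((![1, -1] : Fin 2 → ℤ) i)
      decide
    · exact noSinglets_adj
    · exact noSinglets_cube
    · refine noSinglets_odd bigRep ?_
      intro i
      have h1 : ∀ a : Fin 3, Even ((![2, 0, -2] : Fin 3 → ℤ) a) := by decide
      have h2 : ∀ b : Fin 4, Odd ((![3, 1, -1, -3] : Fin 4 → ℤ) b) := by decide
      exact Even.add_odd (h1 _) (h2 _)
  exact h _

lemma rains_DD (x : ℝ) : (DD c n hn hq).rains x = (c 0 + c 2 + 3 * c 3) * theta x
    + (c 1 - 1) * theta (2 * x) + (c 2 + 2 * c 3) * theta (3 * x) + c 3 * theta (5 * x) := by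
  have h0 : theta 0 = 0 := by simp [theta]
  have hn0 : (0 : ℝ) < n := (abs_nonneg _).trans_lt (hn 0)
  have hroots : (DD c n hn hq).roots.filter (fun α => 0 < α) = {2} := by
    change ({-2, 2} : Finset ℤ).filter (fun α => 0 < α) = {2}
    decide
  unfold Datum.rains
  rw [hroots, Finset.sum_singleton]
  have hs : (∑ j, (1 - (DD c n hn hq).r j) * ∑ i, theta (((DD c n hn hq).R j).weight i * x))
      = c 0 * (∑ i, theta (defRep.weight i * x)) + c 1 * (∑ i, theta (adjRep.weight i * x))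
        + c 2 * (∑ i, theta (cubeRep.weight i * x)) + c 3 * (∑ i, theta (bigRep.weight i * x)) := by
    rw [← sum_c4 c n hn0.ne' (fun R => ∑ i, theta (R.weight i * x))]
    refine Finset.sum_congr rfl fun j _ => ?_
    change (1 - (1 - c (finProdFinEquiv.symm j).1 / n)) * _ = _
    rw [sub_sub_cancel]
    rfl
  rw [hs]
  rw [sum_def (fun w => theta (w * x)), sum_cube (fun w => theta (w * x)),
    sum_adj (fun w => theta (w * x)), sum_big (fun w => theta (w * x))]
  have hneg : ∀ k : ℤ, theta (((-k : ℤ) : ℝ) * x) = theta (k * x) := by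
    intro k
    rw [← theta_neg]; congr 1; push_cast; ring
  have e1 := hneg 1
  have e2 := hneg 2
  have e3 := hneg 3
  have e5 := hneg 5
  rw [e1, e2, e3, e5]
  push_cast
  rw [zero_mul, h0, one_mul]
  ring

lemma trR_DD : (DD c n hn hq).trR = 3 - (2 * c 0 + 3 * c 1 + 4 * c 2 + 12 * c 3) := by
  have hn0 : (0 : ℝ) < n := (abs_nonneg _).trans_lt (hn 0)
  unfold Datum.trR
  have hs : (∑ j, ((DD c n hn hq).r j - 1) * (((DD c n hn hq).R j).dim : ℝ))
      = -(c 0 * (defRep.dim : ℝ) + c 1 * (adjRep.dim : ℝ) + c 2 * (cubeRep.dim : ℝ)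
        + c 3 * (bigRep.dim : ℝ)) := by
    rw [← sum_c4 c n hn0.ne' (fun R => (R.dim : ℝ)), ← Finset.sum_neg_distrib]
    refine Finset.sum_congr rfl fun j _ => ?_
    change (1 - c (finProdFinEquiv.symm j).1 / n - 1) * _ = _
    have : ((DD c n hn hq).R j) = rp (finProdFinEquiv.symm j).1 := rfl
    rw [this]
    ring
  rw [hs]
  have d1 : defRep.dim = 2 := rfl
  have d2 : adjRep.dim = 3 := rfl
  have d3 : cubeRep.dim = 4 := rfl
  have d4 : bigRep.dim = 12 := rfl
  rw [d1, d2, d3, d4]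
  push_cast
  ring

end

/-! ### the Rains function with prescribed minimum and trace -/

lemma theta_eq_zero (y : ℝ) (h0 : 0 ≤ y) (h1 : y ≤ 1) : theta y = y * (1 - y) := by
  rcases h1.lt_or_eq with h | h
  · unfold theta; rw [Int.fract_eq_self.mpr ⟨h0, h⟩]
  · rw [h]; simp [theta]

lemma theta_eq_one (y : ℝ) (h0 : 1 ≤ y) (h1 : y ≤ 2) : theta y = (y - 1) * (2 - y) := by
  have h2 : theta y = theta (y - 1) := by
    unfold theta
    rw [show y - 1 = y - ((1 : ℤ) : ℝ) by push_cast; ring, Int.fract_sub_intCast]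
  rw [h2, theta_eq_zero _ (by linarith) (by linarith)]
  ring

lemma theta_eq_two (y : ℝ) (h0 : 2 ≤ y) (h1 : y ≤ 3) : theta y = (y - 2) * (3 - y) := by
  have h2 : theta y = theta (y - 2) := by
    unfold theta
    rw [show y - 2 = y - ((2 : ℤ) : ℝ) by push_cast; ring, Int.fract_sub_intCast]
  rw [h2, theta_eq_zero _ (by linarith) (by linarith)]
  ring

/-- the function -/
noncomputable def LL (m t K x : ℝ) : ℝ :=
  (-4 * (-(3 / 2) * m - 3 * (t + 15 / 2 * m + 8 * K) + 8 * K) - 9 * (t + 15 / 2 * m + 8 * K)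
    + 25 * K) * theta x + (-(3 / 2) * m - 3 * (t + 15 / 2 * m + 8 * K) + 8 * K) * theta (2 * x)
    + (t + 15 / 2 * m + 8 * K) * theta (3 * x) + (-K) * theta (5 * x)

lemma LL_neg (m t K x : ℝ) : LL m t K (-x) = LL m t K x := by
  unfold LL
  rw [show 2 * -x = -(2 * x) by ring, show 3 * -x = -(3 * x) by ring,
    show 5 * -x = -(5 * x) by ring, theta_neg, theta_neg, theta_neg, theta_neg]

lemma theta_add_int (x : ℝ) (k : ℤ) : theta (x + k) = theta x := by
  unfold theta
  rw [Int.fract_add_intCast]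

lemma LL_add_int (m t K x : ℝ) (k : ℤ) : LL m t K (x + k) = LL m t K x := by
  unfold LL
  rw [show 2 * (x + k) = 2 * x + ((2 * k : ℤ) : ℝ) by push_cast; ring,
    show 3 * (x + k) = 3 * x + ((3 * k : ℤ) : ℝ) by push_cast; ring,
    show 5 * (x + k) = 5 * x + ((5 * k : ℤ) : ℝ) by push_cast; ring,
    theta_add_int, theta_add_int, theta_add_int, theta_add_int]

lemma LL_near (m t K y : ℝ) (h0 : 0 ≤ y) (h1 : y ≤ 1 / 5) : LL m t K y = (3 * m + 4 * K) * y := by
  unfold LL
  rw [theta_eq_zero y h0 (by linarith), theta_eq_zero (2 * y) (by linarith) (by linarith),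
    theta_eq_zero (3 * y) (by linarith) (by linarith),
    theta_eq_zero (5 * y) (by linarith) (by linarith)]
  ring

lemma LL_third (m t K : ℝ) : LL m t K (1 / 3) = m := by
  unfold LL
  rw [theta_eq_zero (1 / 3) (by norm_num) (by norm_num),
    theta_eq_zero (2 * (1 / 3)) (by norm_num) (by norm_num),
    theta_eq_zero (3 * (1 / 3)) (by norm_num) (by norm_num),
    theta_eq_one (5 * (1 / 3)) (by norm_num) (by norm_num)]
  ring

lemma LL_ge_half {m t K : ℝ} (hm : m ≤ 0) (hK : 0 ≤ K) (h9 : 0 ≤ 9 * K + 16 * m + 2 * t)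
    (hs : 0 ≤ 3 * m + 4 * K) (y : ℝ) (h0 : 0 ≤ y) (h1 : y ≤ 1 / 2) : m ≤ LL m t K y := by
  by_cases c1 : y ≤ 1 / 5
  · rw [LL_near m t K y h0 c1]
    nlinarith [mul_nonneg hs h0]
  push Not at c1
  by_cases c2 : y ≤ 1 / 3
  · have e : LL m t K y = 3 * m * y + 2 * K * (1 - 3 * y) := by
      unfold LL
      rw [theta_eq_zero y h0 (by linarith), theta_eq_zero (2 * y) (by linarith) (by linarith),
        theta_eq_zero (3 * y) (by linarith) (by linarith),
        theta_eq_one (5 * y) (by linarith) (by linarith)]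
      ring
    rw [e]
    nlinarith [mul_nonneg hK (by linarith : 0 ≤ 1 - 3 * y),
      mul_nonneg (by linarith : 0 ≤ -m) (by linarith : 0 ≤ 1 - 3 * y)]
  push Not at c2
  by_cases c3 : y ≤ 2 / 5
  · have e : LL m t K y = m + (3 * y - 1) * (16 * m + 2 * t + 14 * K) := by
      unfold LL
      rw [theta_eq_zero y h0 (by linarith), theta_eq_zero (2 * y) (by linarith) (by linarith),
        theta_eq_one (3 * y) (by linarith) (by linarith),
        theta_eq_one (5 * y) (by linarith) (by linarith)]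
      ring
    rw [e]
    nlinarith [mul_nonneg (by linarith : 0 ≤ 3 * y - 1)
      (by linarith : 0 ≤ 16 * m + 2 * t + 14 * K)]
  push Not at c3
  have e : LL m t K y = m + (3 * y - 1) * (16 * m + 2 * t + 9 * K) + K * (5 * y - 1) := by
    unfold LL
    rw [theta_eq_zero y h0 (by linarith), theta_eq_zero (2 * y) (by linarith) (by linarith),
      theta_eq_one (3 * y) (by linarith) (by linarith),
      theta_eq_two (5 * y) (by linarith) (by linarith)]
    ring
  rw [e]
  nlinarith [mul_nonneg (by linarith : 0 ≤ 3 * y - 1)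
    (by linarith : 0 ≤ 16 * m + 2 * t + 9 * K), mul_nonneg hK (by linarith : 0 ≤ 5 * y - 1)]

lemma LL_ge {m t K : ℝ} (hm : m ≤ 0) (hK : 0 ≤ K) (h9 : 0 ≤ 9 * K + 16 * m + 2 * t)
    (hs : 0 ≤ 3 * m + 4 * K) (x : ℝ) : m ≤ LL m t K x := by
  have h1 : LL m t K x = LL m t K (Int.fract x) := by
    conv_lhs => rw [← Int.fract_add_floor x]
    exact LL_add_int m t K _ _
  rw [h1]
  have h2 := Int.fract_nonneg x
  have h3 := (Int.fract_lt_one x).le
  set y := Int.fract x
  by_cases c : y ≤ 1 / 2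
  · exact LL_ge_half hm hK h9 hs y h2 c
  · push Not at c
    have h4 : LL m t K y = LL m t K (1 - y) := by
      rw [← LL_neg m t K y, show 1 - y = -y + ((1 : ℤ) : ℝ) by push_cast; ring, LL_add_int]
    rw [h4]
    exact LL_ge_half hm hK h9 hs (1 - y) (by linarith) (by linarith)

/-- **Prescribed minimum and prescribed trace.** -/
theorem prescribed (m t : ℝ) (hm : m ≤ 0) : ∃ D : Datum, D.NonChiral ∧ D.NoSinglets ∧
    (∃ ε : ℝ, 0 < ε ∧ ∀ x : ℝ, 0 < |x| → |x| < ε → 0 < D.rains x) ∧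
    IsLeast (Set.range D.rains) m ∧ D.trR = t := by
  set K : ℝ := 3 * |m| + |t| + 1 with hKd
  have hK : 0 ≤ K := by positivity
  have hmm : |m| = -m := abs_of_nonpos hm
  have ht1 := neg_abs_le t
  have ht2 := le_abs_self t
  have hs : 0 < 3 * m + 4 * K := by rw [hKd, hmm]; linarith [abs_nonneg t]
  have h9 : 0 ≤ 9 * K + 16 * m + 2 * t := by rw [hKd, hmm]; linarith [abs_nonneg t]
  set A3 : ℝ := t + 15 / 2 * m + 8 * K with hA3
  set A2 : ℝ := -(3 / 2) * m - 3 * A3 + 8 * K with hA2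
  set A1 : ℝ := -4 * A2 - 9 * A3 + 25 * K with hA1
  set c : Fin 4 → ℝ := ![A1 - A3 + K, A2 + 1, A3 + 2 * K, -K] with hc
  have hc0 : c 0 = A1 - A3 + K := rfl
  have hc1 : c 1 = A2 + 1 := rfl
  have hc2 : c 2 = A3 + 2 * K := rfl
  have hc3 : c 3 = -K := rfl
  obtain ⟨n, hn⟩ := exists_nat_gt (|c 0| + |c 1| + |c 2| + |c 3|)
  have hn' : ∀ a, |c a| < n := by
    intro a
    have a0 := abs_nonneg (c 0)
    have a1 := abs_nonneg (c 1)
    have a2 := abs_nonneg (c 2)
    have a3 := abs_nonneg (c 3)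
    fin_cases a
    · show |c 0| < n; linarith
    · show |c 1| < n; linarith
    · show |c 2| < n; linarith
    · show |c 3| < n; linarith
  have hq : 2 * c 0 + 8 * c 1 + 20 * c 2 + 92 * c 3 = 8 := by
    rw [hc0, hc1, hc2, hc3, hA1]
    ring
  have hr : ∀ x, (DD c n hn' hq).rains x = LL m t K x := by
    intro x
    rw [rains_DD, hc0, hc1, hc2, hc3]
    unfold LL
    rw [← hA3, ← hA2, ← hA1]
    ring
  refine ⟨DD c n hn' hq, nonChiral_DD c n hn' hq, noSinglets_DD c n hn' hq, ?_, ?_, ?_⟩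
  · refine ⟨1 / 5, by norm_num, ?_⟩
    intro x hx0 hx
    rw [hr]
    rcases lt_or_gt_of_ne (abs_pos.mp hx0) with h | h
    · rw [← LL_neg, LL_near m t K (-x) (by linarith) (by rw [abs_of_neg h] at hx; linarith)]
      exact mul_pos hs (by linarith)
    · rw [LL_near m t K x h.le (by rw [abs_of_pos h] at hx; linarith)]
      exact mul_pos hs h
  · refine ⟨⟨1 / 3, by rw [hr, LL_third]⟩, ?_⟩
    rintro _ ⟨x, rfl⟩
    rw [hr]
    exact LL_ge hm hK h9 hs.le x
  · rw [trR_DD, hc0, hc1, hc2, hc3, hA1, hA2, hA3]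
    ring

end Pool.Agent.Y16.RA
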